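import Pool.Agent.Helper30.HMain
import Pool.Agent.Helper30.HAsplund

/-!
# MP_2b27bc_an, own statement: smooth continuous seminorms on `C₀(T)` have large kernels

`Helper30.HMain` with seminorms instead of norms: definiteness is replaced by for every `t ≥ t₀`
some `e v - e u`, `t ≤ u ≤ v`, is not in the kernel.
-/

set_option autoImplicit false

open Set Filter Topology

namespace Pool.Agent.Helper91.OWN.Haydon

open Pool.Agent.Helper30.Haydon

section main

variable {T : Type} [PartialOrder T] [TopologicalSpace T] [DiscreteTopology T] [BigTree T]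
variable {p : XX T → ℝ} {C : ℝ}

/-- The main step: either one can increase the last value at small cost, or the norm is not
Fréchet differentiable at some nonzero point. -/
theorem step (h : SN p C) {t₀ : T}
    (hNV : ∀ t, t₀ ≤ t → ∃ u v, t ≤ u ∧ u ≤ v ∧ p (e v - e u) ≠ 0)
    (hdiff : ∀ x : XX T, p x ≠ 0 → DifferentiableAt ℝ p x)
    {ξ : XX T} {s : ℝ} {t : T} (ht₀ : t₀ ≤ t) (hs : 0 < s) (hst : Stab p ξ s t) {η : ℝ}
    (hη : 0 < η) :
    ∃ (ξ' : XX T) (s' : ℝ) (t' : T), t ≤ t' ∧ s < s' ∧ ‖ξ' - ξ‖ ≤ s' - s ∧ Stab p ξ' s' t' ∧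
      p (ξ' + s' • e t') ≤ p (ξ + s • e t) + η * (s' - s) := by
  classical
  by_contra hcon
  set q := p (ξ + s • e t) with hq
  -- not Case 1
  have NC : ∀ ε : ℝ, 0 < ε → ∀ u', t ≤ u' → ∀ u, u' ≤ u → ∃ v, u ≤ v ∧
      q + η * ε < p (ξ - ε • e u' + (s + ε) • e v) := by
    intro ε hε u' hu' u hu
    by_contra hno
    push Not at hno
    obtain ⟨t', ht', hstab⟩ := h.exists_stab (ξ - ε • e u') (s + ε) u
    apply hcon
    refine ⟨ξ - ε • e u', s + ε, t', hu'.trans (hu.trans ht'), by linarith, ?_, hstab, ?_⟩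
    · have h1 : ξ - ε • e u' - ξ = -(ε • e u') := by abel
      rw [h1, norm_neg, norm_smul, Real.norm_eq_abs, abs_of_pos hε]
      have := norm_e_le u'
      nlinarith
    · have := hno t' ht'
      linarith
  -- q is positive
  have hqpos : q ≠ 0 := by
    intro hq0
    obtain ⟨u, v, h1, h2, h3⟩ := hNV t ht₀
    apply h3
    have h4 : p (s • (e v - e u)) ≤ 0 := by
      have heq : s • (e v - e u) = (ξ + s • e v) + (-(ξ + s • e u)) := by module
      rw [heq]
      refine (h.sub _ _).trans ?_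
      rw [h.neg, hst v (h1.trans h2), hst u h1, ← hq, hq0, add_zero]
    rw [h.hom, abs_of_pos hs] at h4
    have h5 := h.nonneg (e v - e u)
    nlinarith
  let E : ℕ → ℝ := fun n => 1 / ((n : ℝ) + 1)
  have hE : ∀ n, 0 < E n := fun n => by positivity
  -- recursive selection
  have sel : ∀ (n : ℕ) (a b : T), ∃ c : T, t ≤ a → a ≤ b → b ≤ c ∧
      (∃ i, ch b i ≤ c ∧ ∀ w : XX T, ‖w‖ ≤ s → (∀ r, ¬ ch b i ≤ r → vv w r = 0) →
        p (ξ - E n • e a + (s + E n) • e b) - η * E n / 2 ≤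
          p (ξ - E n • e a + (s + E n) • e b + w)) ∧
      q + η * E (n + 1) < p (ξ - E (n + 1) • e b + (s + E (n + 1)) • e c) := by
    intro n a b
    by_cases hab : t ≤ a ∧ a ≤ b
    · obtain ⟨i, hi⟩ := (h.avg (ξ - E n • e a + (s + E n) • e b) b hs.le
        (show 0 < η * E n / 2 by have := hE n; positivity)).exists_notMem
      obtain ⟨v, hv1, hv2⟩ := NC (E (n + 1)) (hE _) b (hab.1.trans hab.2) (ch b i) (lt_ch b i).le
      refine ⟨v, fun _ _ => ⟨(lt_ch b i).le.trans hv1, ⟨i, hv1, ?_⟩, hv2⟩⟩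
      intro w hw1 hw2
      by_contra hlt
      push Not at hlt
      exact hi ⟨w, hw1, hw2, hlt⟩
    · exact ⟨a, fun h1 h2 => absurd ⟨h1, h2⟩ hab⟩
  choose c hc using sel
  obtain ⟨c₀, hc₀1, hc₀2⟩ := NC (E 0) (hE 0) t le_rfl t le_rfl
  let P : ℕ → T × T := fun n => Nat.rec (t, c₀) (fun n x => (x.2, c n x.1 x.2)) n
  have hP : ∀ n, P (n + 1) = ((P n).2, c n (P n).1 (P n).2) := fun n => rfl
  let u : ℕ → T := fun n => (P n).1
  have hu1 : ∀ n, u (n + 1) = (P n).2 := fun n => rfl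
  have hbase : ∀ n, t ≤ (P n).1 ∧ (P n).1 ≤ (P n).2 ∧
      q + η * E n < p (ξ - E n • e (P n).1 + (s + E n) • e (P n).2) := by
    intro n
    induction n with
    | zero => exact ⟨le_rfl, hc₀1, hc₀2⟩
    | succ n ih =>
      obtain ⟨h1, h2, h3⟩ := hc n (P n).1 (P n).2 ih.1 ih.2.1
      rw [hP]
      exact ⟨ih.1.trans ih.2.1, h1, h3⟩
  have hmono : Monotone u := monotone_nat_of_le_succ fun n => (hbase n).2.1
  have htu : ∀ n, t ≤ u n := fun n => (hbase n).1
  have hgood : ∀ n, ∃ i, ch (u (n + 1)) i ≤ u (n + 2) ∧ ∀ w : XX T, ‖w‖ ≤ s →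
      (∀ r, ¬ ch (u (n + 1)) i ≤ r → vv w r = 0) →
        p (ξ - E n • e (u n) + (s + E n) • e (u (n + 1))) - η * E n / 2 ≤
          p (ξ - E n • e (u n) + (s + E n) • e (u (n + 1)) + w) := fun n =>
    (hc n (P n).1 (P n).2 (hbase n).1 (hbase n).2.1).2.1
  have hbig : ∀ n, q + η * E n < p (ξ - E n • e (u n) + (s + E n) • e (u (n + 1))) :=
    fun n => (hbase n).2.2
  obtain ⟨L, hL, -⟩ := BigTree.lub u hmono
  have htL : t ≤ L := (htu 0).trans (hL 0)
  set z := ξ + s • e L with hz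
  have hpz : p z = q := hst L htL
  have hz0 : p z ≠ 0 := by
    rw [hpz]
    exact hqpos
  let J : ℕ → XX T := fun n => e (u (n + 1)) - e (u n)
  have hJ : ∀ n, ‖J n‖ ≤ 1 := fun n => norm_J_le (hmono (Nat.le_succ n))
  have hlow : ∀ n, q + η * E n / 2 ≤ p (z + E n • J n) := by
    intro n
    obtain ⟨i, hi1, hi2⟩ := hgood n
    have hle : u (n + 1) ≤ L := hL (n + 1)
    have key := hi2 (s • (e L - e (u (n + 1)))) (by
        rw [norm_smul, Real.norm_eq_abs, abs_of_pos hs]
        have := norm_J_le (T := T) hle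
        nlinarith) (by
        intro r hr
        rw [Helper30.Haydon.smul_apply, J_apply_eq_zero hle, mul_zero]
        intro hc'
        exact hr (ch_le_of _ i (hi1.trans (hL (n + 2))) hc'.1 hc'.2))
    have heq : ξ - E n • e (u n) + (s + E n) • e (u (n + 1)) + s • (e L - e (u (n + 1))) =
        z + E n • J n := by
      simp only [hz, J]
      module
    rw [heq] at key
    have := hbig n
    linarith
  -- differentiability
  obtain ⟨D, hD⟩ := hdiff z hz0
  have hE0 : Tendsto E atTop (𝓝 0) := tendsto_one_div_add_atTop_nhds_zero_nat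
  have hto : Tendsto (fun n => z + E n • J n) atTop (𝓝 z) := by
    have h1 : Tendsto (fun n => E n • J n) atTop (𝓝 0) := by
      apply squeeze_zero_norm (a := E) _ hE0
      intro n
      rw [norm_smul, Real.norm_eq_abs, abs_of_pos (hE n)]
      have := hJ n
      have := hE n
      nlinarith
    simpa using (tendsto_const_nhds (x := z)).add h1
  have hlo := (hD.isLittleO.comp_tendsto hto).def (show (0 : ℝ) < η / 8 by positivity)
  obtain ⟨N, hN⟩ := eventually_atTop.1 hlo
  have hDJ : ∀ n, N ≤ n → η / 4 ≤ D (J n) := by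
    intro n hn
    have h1 := hN n hn
    simp only [Function.comp_apply, add_sub_cancel_left] at h1
    rw [map_smul, smul_eq_mul, Real.norm_eq_abs, norm_smul, Real.norm_eq_abs,
      abs_of_pos (hE n)] at h1
    have h2 := (abs_le.1 h1).2
    have h3 := hlow n
    have h4 := hJ n
    have h5 := hE n
    rw [hpz] at h2
    have h6 : E n * ‖J n‖ ≤ E n := by nlinarith
    have h7 : η / 8 * (E n * ‖J n‖) ≤ η / 8 * E n := by
      apply mul_le_mul_of_nonneg_left h6; positivity
    have h8 : E n * (η / 4) ≤ E n * D (J n) := by nlinarith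
    exact le_of_mul_le_mul_left h8 h5
  obtain ⟨K, hK⟩ := exists_nat_gt (‖D‖ / (η / 4))
  have hsum : ‖∑ n ∈ Finset.Ico N (N + K), J n‖ ≤ 1 := by
    apply norm_sum_le _ _ zero_le_one (fun n _ => hJ n)
    intro r i _ j _ hi hj
    have h1 := J_ne (hmono (Nat.le_succ i)) hi
    have h2 := J_ne (hmono (Nat.le_succ j)) hj
    rcases lt_trichotomy i j with hij | hij | hij
    · exact absurd (h1.1.trans (hmono hij)) h2.2
    · exact hij
    · exact absurd (h2.1.trans (hmono hij)) h1.2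
  have h9 : D (∑ n ∈ Finset.Ico N (N + K), J n) ≤ ‖D‖ := by
    refine (le_abs_self _).trans ((D.le_opNorm _).trans ?_)
    nlinarith [norm_nonneg D]
  rw [map_sum] at h9
  have h10 : ∑ n ∈ Finset.Ico N (N + K), (η / 4) ≤ ∑ n ∈ Finset.Ico N (N + K), D (J n) :=
    Finset.sum_le_sum fun n hn => hDJ n (Finset.mem_Ico.1 hn).1
  rw [Finset.sum_const, Nat.card_Ico, Nat.add_sub_cancel_left, nsmul_eq_mul] at h10
  rw [div_lt_iff₀ (by positivity)] at hK
  linarith

theorem big (h : SN p C) {s₀ : T}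
    (hNV : ∀ t, s₀ ≤ t → ∃ u v, t ≤ u ∧ u ≤ v ∧ p (e v - e u) ≠ 0)
    (hdiff : ∀ x : XX T, p x ≠ 0 → DifferentiableAt ℝ p x) {η : ℝ} (hη : 0 < η) (M : ℝ) {t₀ : T}
    (hs₀ : s₀ ≤ t₀) :
    ∃ a : State p, t₀ ≤ a.t ∧ M ≤ a.s ∧ p (a.ξ + a.s • e a.t) ≤ C + η * a.s := by
  classical
  obtain ⟨t₁, ht₁, hst₁⟩ := h.exists_stab 0 1 t₀
  let x₀ : State p := ⟨0, 1, t₁, le_rfl, hst₁⟩
  by_contra hcon
  push Not at hcon
  have hx₀ : p (x₀.ξ + x₀.s • e x₀.t) ≤ C := by
    change p (0 + (1 : ℝ) • e t₁) ≤ C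
    rw [zero_add, one_smul]
    have := h.bd (e t₁)
    have h2 := norm_e_le t₁
    nlinarith [h.hC]
  have hreach : ∀ a : State p, State.R η x₀ a → a.s < M := by
    intro a ha
    by_contra hM
    push Not at hM
    have h1 := hcon a (ht₁.trans ha.1) hM
    have h2 := ha.2.2
    have h3 : x₀.s = 1 := rfl
    rw [h3] at h2
    nlinarith
  obtain ⟨b, hb1, hb2⟩ := brezis_browder (S := {a : State p // State.R η x₀ a})
    (fun a b => State.R η a.1 b.1) (fun a => State.R_refl _ _)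
    (fun a b c h1 h2 => State.R_trans _ _ _ _ h1 h2) (fun a => a.1.s) M
    (fun a => (hreach a.1 a.2).le) (fun a b hab => State.R_s hab) (by
      intro f hf
      obtain ⟨b, hb⟩ := State.chain h hη (M := M) (fun n => (f n).1)
        (fun n => (hreach _ (f n).2).le) hf
      exact ⟨⟨b, State.R_trans _ _ _ _ (f 0).2 (hb 0)⟩, hb⟩) ⟨x₀, State.R_refl _ _⟩
  obtain ⟨ξ', s', t', h1, h2, h3, h4, h5⟩ :=
    step h hNV hdiff (hs₀.trans (ht₁.trans b.2.1)) (lt_of_lt_of_le one_pos b.1.hs) b.1.stab hη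
  let b' : State p := ⟨ξ', s', t', b.1.hs.trans h2.le, h4⟩
  have hRb : State.R η b.1 b' := ⟨h1, h3, h5⟩
  have := hb2 ⟨b', State.R_trans _ _ _ _ b.2 hRb⟩ hRb
  change s' = b.1.s at this
  linarith

theorem small (h : SN p C) {s₀ : T}
    (hNV : ∀ t, s₀ ≤ t → ∃ u v, t ≤ u ∧ u ≤ v ∧ p (e v - e u) ≠ 0)
    (hdiff : ∀ x : XX T, p x ≠ 0 → DifferentiableAt ℝ p x) {δ : ℝ} (hδ : 0 < δ) {t₀ : T}
    (hs₀ : s₀ ≤ t₀) :
    ∃ t, t₀ ≤ t ∧ ∀ u v, t ≤ u → u ≤ v → p (e v - e u) ≤ δ := by
  obtain ⟨a, ha1, ha2, ha3⟩ := big h hNV hdiff (show 0 < δ / 4 by positivity) (4 * C / δ) hs₀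
  refine ⟨a.t, ha1, fun u v hu huv => ?_⟩
  have hs : 0 < a.s := lt_of_lt_of_le one_pos a.hs
  have h1 : p (a.s • (e v - e u)) ≤ 2 * p (a.ξ + a.s • e a.t) := by
    have heq : a.s • (e v - e u) = (a.ξ + a.s • e v) + (-(a.ξ + a.s • e u)) := by module
    rw [heq]
    refine (h.sub _ _).trans ?_
    rw [h.neg, a.stab v (hu.trans huv), a.stab u hu]
    linarith
  rw [h.hom, abs_of_pos hs] at h1
  rw [div_le_iff₀ hδ] at ha2
  have h3 : a.s * p (e v - e u) ≤ a.s * δ := by nlinarith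
  exact le_of_mul_le_mul_left h3 hs

/-- A continuous seminorm which is Fréchet differentiable off its kernel vanishes on all
differences `e v - e u`, `t ≤ u ≤ v`, for some `t` above any given `s₀`. -/
theorem exists_flat (h : SN p C) (hdiff : ∀ x : XX T, p x ≠ 0 → DifferentiableAt ℝ p x)
    (s₀ : T) : ∃ t, s₀ ≤ t ∧ ∀ u v, t ≤ u → u ≤ v → p (e v - e u) = 0 := by
  classical
  by_contra hcon
  push Not at hcon
  have hNV : ∀ t, s₀ ≤ t → ∃ u v, t ≤ u ∧ u ≤ v ∧ p (e v - e u) ≠ 0 := hcon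
  have hsel : ∀ (n : ℕ) (x : T), ∃ t, s₀ ≤ x → x ≤ t ∧ ∀ u v, t ≤ u → u ≤ v →
      p (e v - e u) ≤ 1 / ((n : ℝ) + 1) := by
    intro n x
    by_cases hx : s₀ ≤ x
    · obtain ⟨t, ht⟩ := small h hNV hdiff (δ := 1 / ((n : ℝ) + 1)) (by positivity) hx
      exact ⟨t, fun _ => ht⟩
    · exact ⟨x, fun h' => absurd h' hx⟩
  choose g hg using hsel
  let f : ℕ → T := fun n => Nat.rec s₀ (fun n x => g n x) n
  have hf : ∀ n, f (n + 1) = g n (f n) := fun n => rfl
  have hs : ∀ n, s₀ ≤ f n := by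
    intro n
    induction n with
    | zero => exact le_rfl
    | succ n ih =>
      rw [hf]
      exact ih.trans (hg n _ ih).1
  have hmono : Monotone f := monotone_nat_of_le_succ fun n => by rw [hf]; exact (hg _ _ (hs n)).1
  obtain ⟨L, hL, -⟩ := BigTree.lub f hmono
  obtain ⟨u, v, h1, h2, h3⟩ := hNV L ((hs 0).trans (hL 0))
  apply h3
  refine le_antisymm ?_ (h.nonneg _)
  apply le_of_forall_pos_le_add
  intro ε hε
  obtain ⟨n, hn⟩ := exists_nat_one_div_lt hε
  have := (hg n (f n) (hs n)).2 u v (by rw [← hf]; exact (hL (n + 1)).trans h1) h2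
  linarith

/-- combinations of the `e v` above `t`, with the values outside the cone removed -/
theorem approx_cone (t : T) (f : XX T) (hf : ∀ s, ¬ t < s → vv f s = 0) {ε : ℝ} (hε : 0 < ε) :
    ∃ g : XX T, g ∈ Submodule.span ℝ {x : XX T | ∃ v, t ≤ v ∧ x = e v - e t} ∧ ‖f - g‖ ≤ ε := by
  classical
  let S : Submodule ℝ (XX T) := Submodule.span ℝ {x : XX T | ∃ v, t ≤ v ∧ x = e v - e t}
  -- the good elements: some `g ∈ S` agrees with `x` on the cone and vanishes outside
  let G : Submodule ℝ (XX T) :=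
    { carrier := {x | ∃ g ∈ S, ∀ s, vv g s = if t < s then vv x s else 0}
      zero_mem' := ⟨0, S.zero_mem, fun s => by simp [Helper30.Haydon.zero_apply]⟩
      add_mem' := by
        rintro a b ⟨g, hg, h1⟩ ⟨g', hg', h2⟩
        refine ⟨g + g', S.add_mem hg hg', fun s => ?_⟩
        rw [Helper30.Haydon.add_apply, h1, h2]
        split_ifs
        · rfl
        · rw [add_zero]
      smul_mem' := by
        rintro c a ⟨g, hg, h1⟩
        refine ⟨c • g, S.smul_mem c hg, fun s => ?_⟩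
        rw [Helper30.Haydon.smul_apply, h1]
        split_ifs
        · rfl
        · rw [mul_zero] }
  have hG : ∀ v, e v ∈ G := by
    intro v
    by_cases hv : t ≤ v
    · refine ⟨e v - e t, Submodule.subset_span ⟨v, hv, rfl⟩, fun s => ?_⟩
      split_ifs with hs
      · by_cases hsv : s ≤ v
        · rw [J_apply_mem hsv (not_le_of_gt hs), e_of_le hsv]
        · rw [J_apply_eq_zero hv fun h' => hsv h'.1, e_of_not_le hsv]
      · refine J_apply_eq_zero hv fun h' => hs ?_
        rcases BigTree.chain s t v h'.1 hv with h1 | h1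
        · exact absurd h1 h'.2
        · exact lt_of_le_not_ge h1 h'.2
    · refine ⟨0, S.zero_mem, fun s => ?_⟩
      rw [Helper30.Haydon.zero_apply]
      split_ifs with hs
      · exact (e_of_not_le fun h' => hv (hs.le.trans h')).symm
      · rfl
  have h1 := dense_e G.topologicalClosure (Submodule.isClosed_topologicalClosure _)
    (fun v => Submodule.le_topologicalClosure _ (hG v)) f
  have h2 : f ∈ closure (G : Set (XX T)) := h1
  rw [Metric.mem_closure_iff] at h2
  obtain ⟨x, ⟨g, hg, hgx⟩, hx⟩ := h2 ε hε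
  refine ⟨g, hg, (norm_le_iff _ hε.le).2 fun s => ?_⟩
  rw [Helper30.Haydon.sub_apply, hgx]
  rw [dist_eq_norm] at hx
  split_ifs with hs
  · rw [← Helper30.Haydon.sub_apply]
    exact (abs_apply_le _ _).trans hx.le
  · rw [hf s hs, sub_zero, abs_zero]
    exact hε.le

/-- A continuous seminorm on `C₀(T)` which is Fréchet differentiable off its kernel vanishes on
all functions supported on a cone `{s | t < s}`, for some `t` above any given `s₀`. -/
theorem exists_cone (h : SN p C) (hdiff : ∀ x : XX T, p x ≠ 0 → DifferentiableAt ℝ p x)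
    (s₀ : T) : ∃ t, s₀ ≤ t ∧ ∀ f : XX T, (∀ s, ¬ t < s → vv f s = 0) → p f = 0 := by
  obtain ⟨t, ht, hflat⟩ := exists_flat h hdiff s₀
  refine ⟨t, ht, fun f hf => ?_⟩
  have hspan : ∀ g ∈ Submodule.span ℝ {x : XX T | ∃ v, t ≤ v ∧ x = e v - e t}, p g = 0 := by
    intro g hg
    induction hg using Submodule.span_induction with
    | mem x hx =>
      obtain ⟨v, hv, rfl⟩ := hx
      exact hflat t v le_rfl hv
    | zero => exact h.zero
    | add x y _ _ hx hy =>
      refine le_antisymm ((h.sub x y).trans (by rw [hx, hy, add_zero])) (h.nonneg _)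
    | smul c x _ hx => rw [h.hom, hx, mul_zero]
  refine le_antisymm ?_ (h.nonneg _)
  apply le_of_forall_pos_le_add
  intro ε hε
  have hC := h.hC
  obtain ⟨g, hg, hfg⟩ := approx_cone t f hf (ε := ε / (C + 1)) (by positivity)
  have h1 : p f ≤ p (f - g) + p g := by
    have := h.sub (f - g) g
    rwa [sub_add_cancel] at this
  rw [hspan g hg, add_zero] at h1
  have h2 := h.bd (f - g)
  have h3 : C * ‖f - g‖ ≤ C * (ε / (C + 1)) := mul_le_mul_of_nonneg_left hfg hC
  have h4 : C * (ε / (C + 1)) ≤ ε := by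
    rw [mul_div_assoc', div_le_iff₀ (by positivity)]
    nlinarith
  linarith

end main

end Pool.Agent.Helper91.OWN.Haydon
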